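import Pool.Agent.Lib.MP_0a5adf_nt.H89.Final

/-!
Natural density version of the descent theorem: almost every trajectory falls below `(log n) ^ 20`
before reaching `g n * n`.
-/

set_option autoImplicit false

namespace Pool.Agent.Lib.MP_0a5adf_nt.H89

open Finset Filter

theorem one_twentieth_lt : (1 / 20 : ℝ) < 3 / 2 - Real.logb 2 (1 + √3) := by
  have h2 : √3 ≤ (1.7320509 : ℝ) := by
    rw [Real.sqrt_le_left (by norm_num)]; norm_num
  have hpos : (0 : ℝ) < 1 + √3 := by positivity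
  have h3 : Real.logb 2 (1 + √3) < 29 / 20 := by
    rw [Real.logb_lt_iff_lt_rpow (by norm_num) hpos]
    have h4 : (1 + √3) ^ (20 : ℕ) < (2 : ℝ) ^ (29 : ℕ) := by
      calc (1 + √3) ^ (20 : ℕ) ≤ (2.7320509 : ℝ) ^ (20 : ℕ) := by
            apply pow_le_pow_left₀ hpos.le; linarith
        _ < _ := by norm_num
    have h5 : ((2 : ℝ) ^ (29 / 20 : ℝ)) ^ (20 : ℕ) = 2 ^ (29 : ℕ) := by
      rw [← Real.rpow_natCast, ← Real.rpow_mul (by norm_num), ← Real.rpow_natCast]
      norm_num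
    rw [← h5] at h4
    exact lt_of_pow_lt_pow_left₀ 20 (by positivity) h4
  linarith

/-- The exceptional numbers of the density statement. -/
def Ex (g : ℕ → ℝ) (n : ℕ) : Prop :=
  ¬ ∃ k : ℕ, (T^[k] n : ℝ) < Real.log n ^ 20 ∧ ∀ j < k, (T^[j] n : ℝ) < g n * n

open scoped Classical in
theorem block_bound (g : ℕ → ℝ) (hg : Tendsto g atTop atTop) (ε : ℝ) (hε : 0 < ε) :
    ∃ L₀ : ℕ, ∀ L ≥ L₀, (((Ico (2 ^ L) (2 ^ (L + 1))).filter fun n => Ex g n).card : ℝ) ≤
      ε * 2 ^ L := by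
  -- the exponent
  set δ : ℝ := (1 / 20 + (3 / 2 - Real.logb 2 (1 + √3))) / 2 with hδdef
  have h20 := one_twentieth_lt
  have hδ1 : δ < 3 / 2 - Real.logb 2 (1 + √3) := by rw [hδdef]; linarith
  have hδ2 : 1 / 20 < δ := by rw [hδdef]; linarith
  obtain ⟨c, C, hc, hC, hD⟩ := descent δ (by linarith) hδ1
  set lam : ℝ := max 1 (4 / ε) with hlam
  have hlam1 : 1 ≤ lam := le_max_left _ _
  have hlam2 : 4 / ε ≤ lam := le_max_right _ _
  have hl2 : (0 : ℝ) < Real.log 2 := Real.log_pos (by norm_num)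
  -- eventual properties
  have hE1 : ∀ᶠ n : ℕ in atTop, lam ≤ g n := hg.eventually_ge_atTop lam
  obtain ⟨N1, hN1⟩ := eventually_atTop.1 hE1
  have hlin : Tendsto (fun L : ℕ => (L : ℝ) * Real.log 2) atTop atTop :=
    tendsto_natCast_atTop_atTop.atTop_mul_const hl2
  have hE2 : ∀ᶠ L : ℕ in atTop, 1 ≤ (L : ℝ) * Real.log 2 := hlin.eventually_ge_atTop 1
  have hE3 : ∀ᶠ L : ℕ in atTop, (((L : ℝ) * Real.log 2) ^ 20) ^ 2 ≤ 2 ^ L := by
    have h1 : Tendsto (fun x : ℝ => x ^ 40 * Real.exp (-x)) atTop (nhds 0) :=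
      Real.tendsto_pow_mul_exp_neg_atTop_nhds_zero 40
    have h2 := (h1.comp hlin).eventually_le_const (show (0 : ℝ) < 1 by norm_num)
    filter_upwards [h2] with L hL
    have h3 : Real.exp (-((L : ℝ) * Real.log 2)) * 2 ^ L = 1 := by
      have h4 : (2 : ℝ) ^ L = Real.exp ((L : ℝ) * Real.log 2) := by
        rw [← Real.log_pow, Real.exp_log (by positivity)]
      rw [h4, ← Real.exp_add]
      simp
    have h5 : ((L : ℝ) * Real.log 2) ^ 40 * Real.exp (-((L : ℝ) * Real.log 2)) ≤ 1 := hL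
    have h6 : (0 : ℝ) < 2 ^ L := by positivity
    calc (((L : ℝ) * Real.log 2) ^ 20) ^ 2 = ((L : ℝ) * Real.log 2) ^ 40 *
          (Real.exp (-((L : ℝ) * Real.log 2)) * 2 ^ L) := by rw [h3]; ring
      _ = ((L : ℝ) * Real.log 2) ^ 40 * Real.exp (-((L : ℝ) * Real.log 2)) * 2 ^ L := by ring
      _ ≤ 1 * 2 ^ L := mul_le_mul_of_nonneg_right h5 h6.le
      _ = _ := one_mul _
  have hE4 : ∀ᶠ L : ℕ in atTop, C * L / (((L : ℝ) * Real.log 2) ^ 20) ^ δ ≤ ε / 2 := by
    have h1 : Tendsto (fun x : ℝ => x ^ (-(20 * δ - 1))) atTop (nhds 0) :=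
      tendsto_rpow_neg_atTop (by linarith)
    have h2 : Tendsto (fun L : ℕ => C / Real.log 2 * ((L : ℝ) * Real.log 2) ^ (-(20 * δ - 1)))
        atTop (nhds (C / Real.log 2 * 0)) := (h1.comp hlin).const_mul _
    rw [mul_zero] at h2
    have h3 := h2.eventually_le_const (show (0 : ℝ) < ε / 2 by positivity)
    filter_upwards [h3, hE2] with L hL hL2
    refine le_trans (le_of_eq ?_) hL
    have hx : (0 : ℝ) < (L : ℝ) * Real.log 2 := by linarith
    have h4 : (((L : ℝ) * Real.log 2) ^ 20) ^ δ = ((L : ℝ) * Real.log 2) ^ (20 * δ) := by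
      rw [← Real.rpow_natCast, ← Real.rpow_mul hx.le]
      norm_num
    have h5 : ((L : ℝ) * Real.log 2) ^ (-(20 * δ - 1)) =
        (L : ℝ) * Real.log 2 / ((L : ℝ) * Real.log 2) ^ (20 * δ) := by
      rw [show -(20 * δ - 1) = 1 - 20 * δ by ring, Real.rpow_sub hx, Real.rpow_one]
    rw [h4, h5]
    field_simp
  obtain ⟨L2, hL2⟩ := eventually_atTop.1 (hE2.and (hE3.and hE4))
  refine ⟨max (max N1 L2) 1, fun L hL => ?_⟩
  have hLN : N1 ≤ L := le_trans (le_trans (le_max_left _ _) (le_max_left _ _)) hL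
  have hLL : L2 ≤ L := le_trans (le_trans (le_max_right _ _) (le_max_left _ _)) hL
  have hL1 : 1 ≤ L := le_trans (le_max_right _ _) hL
  obtain ⟨e1, e2, e3⟩ := hL2 L hLL
  set y : ℝ := ((L : ℝ) * Real.log 2) ^ 20 with hy
  have hy1 : 1 ≤ y := one_le_pow₀ e1
  have hb := (hD L y lam hL1 hy1 e2 hlam1).1
  have hsub : (((Ico (2 ^ L) (2 ^ (L + 1))).filter fun n => Ex g n : Finset ℕ) : Set ℕ) ⊆
      Fail L y lam := by
    intro n hn
    rw [mem_coe, mem_filter, mem_Ico] at hn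
    obtain ⟨⟨h1, h2⟩, h3⟩ := hn
    refine ⟨h1, h2, ?_⟩
    rintro ⟨k, hk1, hk2⟩
    apply h3
    have hnL : (2 : ℝ) ^ L ≤ n := by exact_mod_cast h1
    have hnpos : (0 : ℝ) < n := lt_of_lt_of_le (by positivity) hnL
    have hlog : (L : ℝ) * Real.log 2 ≤ Real.log n := by
      rw [← Real.log_pow]
      exact Real.log_le_log (by positivity) hnL
    have hgn : lam ≤ g n := by
      apply hN1
      have : L < 2 ^ L := Nat.lt_two_pow_self
      omega
    refine ⟨k, lt_of_lt_of_le hk1 ?_, fun j hj => lt_of_lt_of_le (hk2 j hj) ?_⟩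
    · exact pow_le_pow_left₀ (by linarith) hlog 20
    · exact mul_le_mul_of_nonneg_right hgn hnpos.le
  have hcard : (((Ico (2 ^ L) (2 ^ (L + 1))).filter fun n => Ex g n).card : ℝ) ≤
      ((Fail L y lam).ncard : ℝ) := by
    have := Set.ncard_le_ncard hsub (Fail_finite L y lam)
    rw [Set.ncard_coe_finset] at this
    exact_mod_cast this
  have h2L : (0 : ℝ) < 2 ^ L := by positivity
  have h1 : 2 * 2 ^ L / lam ≤ ε / 2 * 2 ^ L := by
    rw [div_le_iff₀ (by linarith)]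
    have h3 : 4 ≤ lam * ε := by
      rw [div_le_iff₀ hε] at hlam2; exact hlam2
    nlinarith
  have h2 : C * L * 2 ^ L / y ^ δ ≤ ε / 2 * 2 ^ L := by
    calc C * L * 2 ^ L / y ^ δ = (C * L / y ^ δ) * 2 ^ L := by ring
      _ ≤ _ := mul_le_mul_of_nonneg_right e3 h2L.le
  linarith

open scoped Classical in
/-- **Natural density.** -/
theorem density (g : ℕ → ℝ) (hg : Tendsto g atTop atTop) :
    Tendsto (fun N : ℕ => (((range N).filter fun n => Ex g n).card : ℝ) / N) atTop (nhds 0) := by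
  rw [Metric.tendsto_atTop]
  intro ε hε
  obtain ⟨L₀, hL₀⟩ := block_bound g hg (ε / 4) (by positivity)
  -- numbers below `2 ^ M`
  have hsum : ∀ M, L₀ ≤ M → (((range (2 ^ M)).filter fun n => Ex g n).card : ℝ) ≤
      2 ^ L₀ + ε / 4 * 2 ^ M := by
    intro M hM
    induction M, hM using Nat.le_induction with
    | base =>
      have h1 : ((range (2 ^ L₀)).filter fun n => Ex g n).card ≤ 2 ^ L₀ := by
        refine (card_filter_le _ _).trans ?_
        simp
      have h2 : (((range (2 ^ L₀)).filter fun n => Ex g n).card : ℝ) ≤ 2 ^ L₀ := by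
        exact_mod_cast h1
      have : (0 : ℝ) ≤ ε / 4 * 2 ^ L₀ := by positivity
      linarith
    | succ M hM ih =>
      have h1 : ((range (2 ^ (M + 1))).filter fun n => Ex g n) =
          ((range (2 ^ M)).filter fun n => Ex g n) ∪
            ((Ico (2 ^ M) (2 ^ (M + 1))).filter fun n => Ex g n) := by
        rw [← filter_union]
        congr 1
        ext a
        rw [mem_union, mem_range, mem_range, mem_Ico]
        have : 2 ^ M ≤ 2 ^ (M + 1) := Nat.pow_le_pow_right (by norm_num) (Nat.le_succ M)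
        omega
      have h2 : (((range (2 ^ (M + 1))).filter fun n => Ex g n).card : ℝ) ≤
          (((range (2 ^ M)).filter fun n => Ex g n).card : ℝ) +
            (((Ico (2 ^ M) (2 ^ (M + 1))).filter fun n => Ex g n).card : ℝ) := by
        rw [h1]
        exact_mod_cast card_union_le _ _
      have h3 := hL₀ M hM
      have h4 : (2 : ℝ) ^ (M + 1) = 2 ^ M + 2 ^ M := by ring
      rw [h4]
      linarith
  obtain ⟨N₀, hN₀⟩ := exists_nat_gt ((2 : ℝ) ^ L₀ * (4 / ε))
  refine ⟨max N₀ (2 ^ L₀), fun N hN => ?_⟩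
  have hN1 : N₀ ≤ N := le_trans (le_max_left _ _) hN
  have hN2 : 2 ^ L₀ ≤ N := le_trans (le_max_right _ _) hN
  have hNpos : 0 < N := lt_of_lt_of_le (by positivity) hN2
  have hNr : (0 : ℝ) < N := by exact_mod_cast hNpos
  set M := Nat.log 2 N + 1 with hM
  have hM1 : N < 2 ^ M := Nat.lt_pow_succ_log_self (by norm_num) N
  have hM2 : 2 ^ M ≤ 2 * N := by
    rw [hM, pow_succ]
    have := Nat.pow_log_le_self 2 hNpos.ne'
    omega
  have hM3 : L₀ ≤ M := by
    have : L₀ ≤ Nat.log 2 N := (Nat.le_log_iff_pow_le (by norm_num) hNpos.ne').2 hN2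
    omega
  have h1 := hsum M hM3
  have h2 : (((range N).filter fun n => Ex g n).card : ℝ) ≤
      (((range (2 ^ M)).filter fun n => Ex g n).card : ℝ) := by
    have : ((range N).filter fun n => Ex g n).card ≤
        ((range (2 ^ M)).filter fun n => Ex g n).card := by
      apply card_le_card
      apply filter_subset_filter
      intro a ha
      rw [mem_range] at ha ⊢
      omega
    exact_mod_cast this
  have h3 : (2 : ℝ) ^ M ≤ 2 * N := by exact_mod_cast hM2
  have h4 : (2 : ℝ) ^ L₀ < ε / 4 * N := by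
    have h5 : (2 : ℝ) ^ L₀ * (4 / ε) < N := lt_of_lt_of_le hN₀ (by exact_mod_cast hN1)
    have h6 : (2 : ℝ) ^ L₀ * (4 / ε) * (ε / 4) = 2 ^ L₀ := by field_simp
    calc (2 : ℝ) ^ L₀ = (2 : ℝ) ^ L₀ * (4 / ε) * (ε / 4) := h6.symm
      _ < N * (ε / 4) := mul_lt_mul_of_pos_right h5 (by positivity)
      _ = _ := by ring
  rw [Real.dist_eq, sub_zero, abs_of_nonneg (by positivity), div_lt_iff₀ hNr]
  have h7 : ε / 4 * 2 ^ M ≤ ε / 4 * (2 * N) := mul_le_mul_of_nonneg_left h3 (by positivity)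
  nlinarith

end Pool.Agent.Lib.MP_0a5adf_nt.H89
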