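import Pool.Agent.Lib.MP_0a5adf_nt.H89.Levels

/-!
Counting the starting values whose first passage points are exceptional.
-/

set_option autoImplicit false

namespace Pool.Agent.Lib.MP_0a5adf_nt.H89

open Finset

open scoped Classical in
/-- The starting values whose first passage below `2 ^ (b + 1)` is in `G`, with the usual descent
before. -/
noncomputable def Thr (Q L b : ℕ) (G : Finset ℕ) : Finset ℕ :=
  (Ico (2 ^ L) (2 ^ (L + 1))).filter fun n =>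
    Good Q L n (b + 1) ∧ ∃ i, FP n (b + 1) i ∧ T^[i] n ∈ G

open scoped Classical in
theorem mem_Thr {Q L b n : ℕ} {G : Finset ℕ} : n ∈ Thr Q L b G ↔
    (2 ^ L ≤ n ∧ n < 2 ^ (L + 1)) ∧ Good Q L n (b + 1) ∧ ∃ i, FP n (b + 1) i ∧ T^[i] n ∈ G := by
  unfold Thr
  rw [mem_filter, mem_Ico]

/-- **The law of the first passage point is spread out.** -/
theorem card_Thr_le {Q L b : ℕ} (hQ : 0 < Q) (hb1 : 1 ≤ b) (hbL : b ≤ L) (G : Finset ℕ) :
    ((Thr Q L b G).card : ℝ) ≤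
      (((Q : ℝ) + 2) * L + 1) * (4 * ((b : ℝ) + 2) * (2 ^ L / 2 ^ b)) * G.card := by
  classical
  have hsub : Thr Q L b G ⊆ (range ((Q + 2) * L + 1)).biUnion fun i =>
      G.biUnion fun m => Fib L i m (sig (b + 1)) := by
    intro n hn
    rw [mem_Thr] at hn
    obtain ⟨⟨h1, h2⟩, h3, i, h4, h5⟩ := hn
    have h6 := h3.time_le hQ h1 h2 (by omega) h4
    have h7 := h3.FP_sig h1 h2 (by omega) h4
    rw [mem_biUnion]
    refine ⟨i, mem_range.2 (by omega), ?_⟩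
    rw [mem_biUnion]
    refine ⟨T^[i] n, h5, ?_⟩
    rw [mem_Fib]
    exact ⟨⟨h1, h2⟩, rfl, h7⟩
  set F : ℝ := 4 * ((b : ℝ) + 2) * (2 ^ L / 2 ^ b) with hF
  have hF0 : 0 ≤ F := by positivity
  have hfib : ∀ i m, ((Fib L i m (sig (b + 1))).card : ℝ) ≤ F := by
    intro i m
    refine (card_Fib_le L i m (sig (b + 1)) (sig_nonneg _) (sig_le_half (by omega))).trans ?_
    have h1 : (2 : ℝ) ^ (L + 2) * sig (b + 1) = 4 / 3 * ((b : ℝ) + 2) * (2 ^ L / 2 ^ b) := by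
      unfold sig
      push_cast
      rw [pow_succ 2 b, pow_add]
      field_simp
      ring
    have h2 : (1 : ℝ) ≤ 2 ^ L / 2 ^ b := by
      rw [one_le_div (by positivity)]
      exact pow_le_pow_right₀ (by norm_num) hbL
    have hb0 : (0 : ℝ) ≤ b := Nat.cast_nonneg b
    rw [h1, hF]
    nlinarith
  have h1 : (Thr Q L b G).card ≤ ∑ i ∈ range ((Q + 2) * L + 1), ∑ m ∈ G,
      (Fib L i m (sig (b + 1))).card :=
    (card_le_card hsub).trans (card_biUnion_le.trans (sum_le_sum fun i _ => card_biUnion_le))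
  have h2 : ((Thr Q L b G).card : ℝ) ≤ ∑ _i ∈ range ((Q + 2) * L + 1), ∑ _m ∈ G, F := by
    have h3 : ((Thr Q L b G).card : ℝ) ≤ ∑ i ∈ range ((Q + 2) * L + 1), ∑ m ∈ G,
        ((Fib L i m (sig (b + 1))).card : ℝ) := by exact_mod_cast h1
    exact h3.trans (sum_le_sum fun i _ => sum_le_sum fun m _ => hfib i m)
  refine h2.trans (le_of_eq ?_)
  simp only [sum_const, card_range, nsmul_eq_mul]
  push_cast
  ring

open scoped Classical in
/-- The starting values with an exceptional first passage above `2 ^ l`. -/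
noncomputable def Exc (Q L l : ℕ) : Finset ℕ :=
  (Ico (2 ^ L) (2 ^ (L + 1))).filter fun n => ¬ Good Q L n l

open scoped Classical in
theorem mem_Exc {Q L l n : ℕ} : n ∈ Exc Q L l ↔
    (2 ^ L ≤ n ∧ n < 2 ^ (L + 1)) ∧ ¬ Good Q L n l := by
  unfold Exc
  rw [mem_filter, mem_Ico]

theorem card_Exc_le {Q L l : ℕ} (hQ : 0 < Q) (hl : 1 ≤ l) :
    ((Exc Q L l).card : ℝ) ≤ 8 * (((Q : ℝ) + 2) * L + 1) * 2 ^ L *
      ∑ b ∈ Icc l L, ((b : ℝ) + 2) * ((2 : ℝ) ^ (1 / (2 * Q) : ℝ) * Mh / 2) ^ b := by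
  classical
  have hsub : Exc Q L l ⊆ (Icc l L).biUnion fun b => Thr Q L b (Bad Q b) := by
    intro n hn
    rw [mem_Exc] at hn
    obtain ⟨⟨h1, h2⟩, h3⟩ := hn
    unfold Good at h3
    push Not at h3
    obtain ⟨b0, i0, hb1, hb2, hb3, hb4⟩ := h3
    -- the largest exceptional level
    set S : Finset ℕ := (Icc l L).filter fun b => ∃ i, FP n (b + 1) i ∧ T^[i] n ∈ Bad Q b with hS
    have hne : S.Nonempty := ⟨b0, by
      rw [hS, mem_filter, mem_Icc]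
      exact ⟨⟨hb1, hb2⟩, i0, hb3, hb4⟩⟩
    set b := S.max' hne with hb
    have hbS : b ∈ S := S.max'_mem hne
    rw [hS, mem_filter, mem_Icc] at hbS
    rw [mem_biUnion]
    refine ⟨b, mem_Icc.2 hbS.1, ?_⟩
    rw [mem_Thr]
    refine ⟨⟨h1, h2⟩, ?_, hbS.2⟩
    intro b' i' h4 h5 h6 h7
    have h8 : b' ∈ S := by
      rw [hS, mem_filter, mem_Icc]
      exact ⟨⟨by omega, h5⟩, i', h6, h7⟩
    have h9 : b' ≤ b := S.le_max' b' h8
    omega
  have h1 : ((Exc Q L l).card : ℝ) ≤ ∑ b ∈ Icc l L, ((Thr Q L b (Bad Q b)).card : ℝ) := by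
    exact_mod_cast (card_le_card hsub).trans card_biUnion_le
  refine h1.trans ?_
  rw [mul_sum]
  refine sum_le_sum fun b hb => ?_
  rw [mem_Icc] at hb
  refine (card_Thr_le hQ (by omega) hb.2 _).trans ?_
  have h2 := card_Bad_le hQ b
  have h3 : (0 : ℝ) ≤ (((Q : ℝ) + 2) * L + 1) * (4 * ((b : ℝ) + 2) * (2 ^ L / 2 ^ b)) := by
    positivity
  refine (mul_le_mul_of_nonneg_left h2 h3).trans (le_of_eq ?_)
  rw [div_pow]
  field_simp
  ring

/-- The exponent `δ* = 3/2 - log_2 (1 + √3) = 0.0500...`. -/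
theorem two_rpow_mul_Mh_lt {δ : ℝ} (hδ : δ < 3 / 2 - Real.logb 2 (1 + √3)) :
    (2 : ℝ) ^ δ * Mh < 2 := by
  have h3 : (0 : ℝ) < √3 := Real.sqrt_pos.2 (by norm_num)
  have h2 : (0 : ℝ) < √2 := Real.sqrt_pos.2 (by norm_num)
  have h22 : √2 * √2 = 2 := Real.mul_self_sqrt (by norm_num)
  have hM : Mh = (1 + √3) / √2 := by
    unfold Mh
    rw [← Real.sqrt_eq_rpow, ← Real.sqrt_eq_rpow, Real.sqrt_div' _ (by norm_num),
      Real.sqrt_div' _ (by norm_num), Real.sqrt_one]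
    ring
  have h4 : (2 : ℝ) ^ δ < (2 : ℝ) ^ (3 / 2 - Real.logb 2 (1 + √3)) :=
    Real.rpow_lt_rpow_of_exponent_lt (by norm_num) hδ
  have h5 : (2 : ℝ) ^ (3 / 2 - Real.logb 2 (1 + √3)) = 2 * √2 / (1 + √3) := by
    rw [Real.rpow_sub (by norm_num), Real.rpow_logb (by norm_num) (by norm_num) (by positivity)]
    congr 1
    rw [show (3 / 2 : ℝ) = 1 + 1 / 2 by norm_num, Real.rpow_add (by norm_num), Real.rpow_one,
      ← Real.sqrt_eq_rpow]
  rw [h5] at h4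
  have h6 : 2 * √2 / (1 + √3) * Mh = 2 := by
    rw [hM]
    field_simp
  calc (2 : ℝ) ^ δ * Mh < 2 * √2 / (1 + √3) * Mh := mul_lt_mul_of_pos_right h4 Mh_pos
    _ = 2 := h6

/-- Choice of the parameter `Q`. -/
theorem exists_Q {δ : ℝ} (hδ : δ < 3 / 2 - Real.logb 2 (1 + √3)) :
    ∃ Q : ℕ, 0 < Q ∧ (2 : ℝ) ^ (1 / (2 * Q) : ℝ) * Mh * 2 ^ δ / 2 < 1 := by
  set δ' := (δ + (3 / 2 - Real.logb 2 (1 + √3))) / 2 with hδ'
  have h1 : δ' < 3 / 2 - Real.logb 2 (1 + √3) := by rw [hδ']; linarith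
  have h2 : δ < δ' := by rw [hδ']; linarith
  have h3 := two_rpow_mul_Mh_lt h1
  obtain ⟨Q, hQ⟩ := exists_nat_gt (1 / (δ' - δ))
  have hpos : 0 < δ' - δ := by linarith
  have hQ0 : (0 : ℝ) < Q := lt_trans (by positivity) hQ
  refine ⟨Q, by exact_mod_cast hQ0, ?_⟩
  have h4 : (1 / (2 * Q) : ℝ) + δ ≤ δ' := by
    have h5 : (1 / (2 * Q) : ℝ) ≤ δ' - δ := by
      rw [div_le_iff₀ (by positivity)]
      rw [div_lt_iff₀ hpos] at hQ
      nlinarith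
    linarith
  have h5 : (2 : ℝ) ^ (1 / (2 * Q) : ℝ) * Mh * 2 ^ δ = (2 : ℝ) ^ ((1 / (2 * Q) : ℝ) + δ) * Mh := by
    rw [Real.rpow_add (by norm_num)]; ring
  rw [h5]
  have h6 : (2 : ℝ) ^ ((1 / (2 * Q) : ℝ) + δ) ≤ 2 ^ δ' :=
    Real.rpow_le_rpow_of_exponent_le (by norm_num) h4
  have h7 := mul_le_mul_of_nonneg_right h6 Mh_pos.le
  linarith

/-- The series with linear coefficients. -/
theorem exists_sum_le {r : ℝ} (h0 : 0 ≤ r) (h1 : r < 1) :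
    ∃ K : ℝ, 0 < K ∧ ∀ s : Finset ℕ, ∑ b ∈ s, ((b : ℝ) + 2) * r ^ b ≤ K := by
  have hr : ‖r‖ < 1 := by rw [Real.norm_of_nonneg h0]; exact h1
  have hs1 : Summable fun b : ℕ => (b : ℝ) * r ^ b := by
    have := summable_pow_mul_geometric_of_norm_lt_one 1 hr
    simpa using this
  have hs2 : Summable fun b : ℕ => r ^ b := summable_geometric_of_norm_lt_one hr
  have hs : Summable fun b : ℕ => ((b : ℝ) + 2) * r ^ b := by
    have := hs1.add (hs2.mul_left 2)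
    refine this.congr fun b => ?_
    ring
  refine ⟨∑' b : ℕ, ((b : ℝ) + 2) * r ^ b + 1, ?_, fun s => ?_⟩
  · have : 0 ≤ ∑' b : ℕ, ((b : ℝ) + 2) * r ^ b := tsum_nonneg fun b => by positivity
    linarith
  · have := hs.sum_le_tsum s (fun b _ => by positivity)
    linarith

/-- **Power saving for the exceptional set.** -/
theorem exists_Exc_bound {δ : ℝ} (hδ : δ < 3 / 2 - Real.logb 2 (1 + √3)) (hδ0 : 0 < δ) :
    ∃ (Q : ℕ) (C : ℝ), 0 < Q ∧ 0 < C ∧ ∀ L l : ℕ, 1 ≤ L → 1 ≤ l →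
      ((Exc Q L l).card : ℝ) ≤ C * L * 2 ^ L * (2 : ℝ) ^ (-(δ * l)) := by
  obtain ⟨Q, hQ, hr⟩ := exists_Q hδ
  set r := (2 : ℝ) ^ (1 / (2 * Q) : ℝ) * Mh * 2 ^ δ / 2 with hrdef
  have hr0 : 0 ≤ r := by rw [hrdef]; have := Mh_pos; positivity
  obtain ⟨K, hK, hKs⟩ := exists_sum_le hr0 hr
  refine ⟨Q, 8 * ((Q : ℝ) + 3) * K, hQ, by positivity, fun L l hL hl => ?_⟩
  refine (card_Exc_le hQ hl).trans ?_
  have h1 : ∑ b ∈ Icc l L, ((b : ℝ) + 2) * ((2 : ℝ) ^ (1 / (2 * Q) : ℝ) * Mh / 2) ^ b ≤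
      (2 : ℝ) ^ (-(δ * l)) * K := by
    calc ∑ b ∈ Icc l L, ((b : ℝ) + 2) * ((2 : ℝ) ^ (1 / (2 * Q) : ℝ) * Mh / 2) ^ b
        ≤ ∑ b ∈ Icc l L, (2 : ℝ) ^ (-(δ * l)) * (((b : ℝ) + 2) * r ^ b) := by
          refine sum_le_sum fun b hb => ?_
          rw [mem_Icc] at hb
          have h2 : ((2 : ℝ) ^ (1 / (2 * Q) : ℝ) * Mh / 2) = r * (2 : ℝ) ^ (-δ) := by
            rw [hrdef, Real.rpow_neg (by norm_num)]
            field_simp
          rw [h2, mul_pow, ← Real.rpow_natCast ((2 : ℝ) ^ (-δ)) b, ← Real.rpow_mul (by norm_num)]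
          have h3 : (2 : ℝ) ^ (-δ * (b : ℝ)) ≤ (2 : ℝ) ^ (-(δ * l)) := by
            apply Real.rpow_le_rpow_of_exponent_le (by norm_num)
            have : (l : ℝ) ≤ b := by exact_mod_cast hb.1
            nlinarith
          have h4 : (0 : ℝ) ≤ ((b : ℝ) + 2) * r ^ b := by positivity
          have h5 := mul_le_mul_of_nonneg_right h3 h4
          calc ((b : ℝ) + 2) * (r ^ b * (2 : ℝ) ^ (-δ * (b : ℝ)))
              = (2 : ℝ) ^ (-δ * (b : ℝ)) * (((b : ℝ) + 2) * r ^ b) := by ring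
            _ ≤ _ := h5
      _ = (2 : ℝ) ^ (-(δ * l)) * ∑ b ∈ Icc l L, (((b : ℝ) + 2) * r ^ b) := by rw [mul_sum]
      _ ≤ _ := mul_le_mul_of_nonneg_left (hKs _) (by positivity)
  have hLr : (1 : ℝ) ≤ L := by exact_mod_cast hL
  have h2 : ((Q : ℝ) + 2) * L + 1 ≤ ((Q : ℝ) + 3) * L := by nlinarith
  have h3 : (0 : ℝ) ≤ (2 : ℝ) ^ (-(δ * l)) * K := by positivity
  calc 8 * (((Q : ℝ) + 2) * L + 1) * 2 ^ L *
      ∑ b ∈ Icc l L, ((b : ℝ) + 2) * ((2 : ℝ) ^ (1 / (2 * Q) : ℝ) * Mh / 2) ^ b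
      ≤ 8 * (((Q : ℝ) + 2) * L + 1) * 2 ^ L * ((2 : ℝ) ^ (-(δ * l)) * K) :=
        mul_le_mul_of_nonneg_left h1 (by positivity)
    _ ≤ 8 * (((Q : ℝ) + 3) * L) * 2 ^ L * ((2 : ℝ) ^ (-(δ * l)) * K) := by
        gcongr
    _ = _ := by ring

end Pool.Agent.Lib.MP_0a5adf_nt.H89
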