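import Pool.Agent.Lib.MP_0a5adf_nt.H89.Tail

/-!
The number of starting values in a dyadic block that are mapped to a given point after `i` steps,
when the sum of the reciprocals of the earlier terms of the trajectory is small.
-/

set_option autoImplicit false

namespace Pool.Agent.Lib.MP_0a5adf_nt.H89

open Finset

/-- One third of the sum of the reciprocals of the first `i` terms of the trajectory. -/
noncomputable def Sg (i n : ℕ) : ℝ := ∑ j ∈ range i, 1 / (3 * (T^[j] n : ℝ))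

theorem Sg_nonneg (i n : ℕ) : 0 ≤ Sg i n := sum_nonneg fun j _ => by positivity

theorem Sg_zero (n : ℕ) : Sg 0 n = 0 := by simp [Sg]

theorem Sg_succ (i n : ℕ) : Sg (i + 1) n = Sg i n + 1 / (3 * (T^[i] n : ℝ)) := by
  unfold Sg; rw [sum_range_succ]

/-- The trajectory value is at most `W n / (1 - Sg)`. -/
theorem mul_one_sub_le (i n : ℕ) : (T^[i] n : ℝ) * (1 - Sg i n) ≤ W i n * n := by
  induction i with
  | zero => simp [Sg_zero, W_zero]
  | succ i ih =>
    rw [Function.iterate_succ_apply', Sg_succ]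
    set x : ℕ := T^[i] n with hx
    have hS := Sg_nonneg i n
    have hx0 : (0 : ℝ) ≤ x := Nat.cast_nonneg x
    rcases Nat.mod_two_eq_zero_or_one x with h0 | h1
    · have e : (2 : ℝ) * (T x : ℝ) = (x : ℝ) := by
        have : 2 * T x = x := by
          unfold T; rw [if_pos h0]; omega
        exact_mod_cast this
      rw [W_succ_even i n h0]
      have h2 : (0 : ℝ) ≤ 1 / (3 * (x : ℝ)) := by positivity
      have h3 : (0 : ℝ) ≤ T x := Nat.cast_nonneg _
      nlinarith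
    · have e : (2 : ℝ) * (T x : ℝ) = 3 * (x : ℝ) + 1 := by
        have : 2 * T x = 3 * x + 1 := by
          unfold T; rw [if_neg (by omega)]; omega
        exact_mod_cast this
      rw [W_succ_odd i n h1]
      have hxp : (0 : ℝ) < x := by
        have : 0 < x := by omega
        exact_mod_cast this
      have h2 : 3 * (x : ℝ) * (1 / (3 * (x : ℝ))) = 1 := by field_simp
      have h4 : (0 : ℝ) < 1 / (3 * (x : ℝ)) := by positivity
      have e2 : (T x : ℝ) = (3 * (x : ℝ) + 1) / 2 := by linarith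
      rw [e2]
      set a : ℝ := 1 / (3 * (x : ℝ)) with ha
      have h5 : (3 * (x : ℝ) + 1) / 2 * (1 - (Sg i n + a)) =
          3 / 2 * ((x : ℝ) * (1 - Sg i n)) - (Sg i n + a) / 2 + (1 - 3 * (x : ℝ) * a) / 2 := by ring
      rw [h5, h2]
      nlinarith

/-- A finite set of numbers with differences at most `D`. -/
theorem card_le_of_diff (A : Finset ℕ) (D : ℝ) (hD : 0 ≤ D)
    (h : ∀ a ∈ A, ∀ b ∈ A, (b : ℝ) - a ≤ D) : (A.card : ℝ) ≤ 1 + D := by
  rcases A.eq_empty_or_nonempty with h0 | h0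
  · subst h0; simp; linarith
  · set a := A.min' h0 with ha
    have haA : a ∈ A := A.min'_mem h0
    have h1 : A ⊆ Icc a (a + ⌊D⌋₊) := by
      intro b hb
      have h2 : a ≤ b := A.min'_le b hb
      have h3 := h a haA b hb
      rw [mem_Icc]
      refine ⟨h2, ?_⟩
      have h4 : b - a ≤ ⌊D⌋₊ := by
        apply Nat.le_floor
        rw [Nat.cast_sub h2]; exact h3
      omega
    have h2 := card_le_card h1
    rw [Nat.card_Icc] at h2
    have h3 : A.card ≤ ⌊D⌋₊ + 1 := by omega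
    have h4 : (A.card : ℝ) ≤ (⌊D⌋₊ : ℝ) + 1 := by exact_mod_cast h3
    have h5 := Nat.floor_le hD
    linarith

open Classical in
/-- The starting values in the dyadic block that are at `m` after `i` steps with a small sum of
reciprocals. -/
noncomputable def Fib (L i m : ℕ) (σ : ℝ) : Finset ℕ :=
  (Ico (2 ^ L) (2 ^ (L + 1))).filter fun n => T^[i] n = m ∧ Sg i n ≤ σ

theorem mem_Fib {L i m n : ℕ} {σ : ℝ} : n ∈ Fib L i m σ ↔
    (2 ^ L ≤ n ∧ n < 2 ^ (L + 1)) ∧ T^[i] n = m ∧ Sg i n ≤ σ := by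
  unfold Fib
  rw [mem_filter, mem_Ico]

/-- **Few starting values lead to a given point.** -/
theorem card_Fib_le (L i m : ℕ) (σ : ℝ) (hσ0 : 0 ≤ σ) (hσ : σ ≤ 1 / 2) :
    ((Fib L i m σ).card : ℝ) ≤ 2 * (1 + 2 ^ (L + 2) * σ) := by
  classical
  -- basic estimates for an element
  have hel : ∀ n ∈ Fib L i m σ, (m : ℝ) * 2 ^ i * (1 - σ) ≤ 3 ^ (o i n) * (n : ℝ) ∧
      3 ^ (o i n) * (n : ℝ) ≤ (m : ℝ) * 2 ^ i ∧ (2 : ℝ) ^ L ≤ n ∧ (n : ℝ) < 2 ^ (L + 1) := by
    intro n hn
    rw [mem_Fib] at hn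
    obtain ⟨⟨h1, h2⟩, h3, h4⟩ := hn
    have h5 := mul_one_sub_le i n
    have h6 := W_mul_le i n
    rw [h3] at h5 h6
    unfold W at h5 h6
    have h2i : (0 : ℝ) < 2 ^ i := by positivity
    rw [div_mul_eq_mul_div, le_div_iff₀ h2i] at h5
    rw [div_mul_eq_mul_div, div_le_iff₀ h2i] at h6
    have hm : (0 : ℝ) ≤ m := Nat.cast_nonneg m
    refine ⟨?_, h6, by exact_mod_cast h1, by exact_mod_cast h2⟩
    refine le_trans ?_ h5
    have h7 : (m : ℝ) * 2 ^ i * (1 - σ) ≤ (m : ℝ) * 2 ^ i * (1 - Sg i n) :=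
      mul_le_mul_of_nonneg_left (by linarith) (by positivity)
    linarith
  -- the part with `s` odd steps
  set A : ℕ → Finset ℕ := fun s => (Fib L i m σ).filter fun n => o i n = s with hA
  have hAcard : ∀ s, ((A s).card : ℝ) ≤ 1 + 2 ^ (L + 2) * σ := by
    intro s
    apply card_le_of_diff _ _ (by positivity)
    intro a ha b hb
    rw [hA, mem_filter] at ha hb
    obtain ⟨a1, a2, a3, a4⟩ := hel a ha.1
    obtain ⟨b1, b2, b3, b4⟩ := hel b hb.1
    rw [ha.2] at a1 a2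
    rw [hb.2] at b1 b2
    have h3s : (0 : ℝ) < 3 ^ s := by positivity
    have h1 : 3 ^ s * ((b : ℝ) - a) ≤ (m : ℝ) * 2 ^ i * σ := by nlinarith
    have h2 : (m : ℝ) * 2 ^ i ≤ 2 * (3 ^ s * (a : ℝ)) := by
      have : (m : ℝ) * 2 ^ i * (1 / 2) ≤ (m : ℝ) * 2 ^ i * (1 - σ) :=
        mul_le_mul_of_nonneg_left (by linarith) (by positivity)
      linarith
    have h3 : (m : ℝ) * 2 ^ i * σ ≤ 3 ^ s * (2 ^ (L + 2) * σ) := by
      have h4 : 2 * (3 ^ s * (a : ℝ)) ≤ 3 ^ s * 2 ^ (L + 2) := by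
        have : (2 : ℝ) ^ (L + 2) = 2 * 2 ^ (L + 1) := by ring
        rw [this]
        nlinarith
      have h5 : (m : ℝ) * 2 ^ i ≤ 3 ^ s * 2 ^ (L + 2) := h2.trans h4
      calc (m : ℝ) * 2 ^ i * σ ≤ 3 ^ s * 2 ^ (L + 2) * σ := mul_le_mul_of_nonneg_right h5 hσ0
        _ = _ := by ring
    have h4 : 3 ^ s * ((b : ℝ) - a) ≤ 3 ^ s * (2 ^ (L + 2) * σ) := h1.trans h3
    exact le_of_mul_le_mul_left h4 h3s
  rcases (Fib L i m σ).eq_empty_or_nonempty with h0 | h0
  · rw [h0]; simp; positivity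
  · obtain ⟨n0, hn0, hmin⟩ := exists_min_image (Fib L i m σ) (fun n => o i n) h0
    have hsub : Fib L i m σ ⊆ A (o i n0) ∪ A (o i n0 + 1) := by
      intro n hn
      have h1 := hmin n hn
      obtain ⟨a1, a2, a3, a4⟩ := hel n0 hn0
      obtain ⟨b1, b2, b3, b4⟩ := hel n hn
      have h2 : o i n ≤ o i n0 + 1 := by
        by_contra hcon
        push Not at hcon
        have h3 : (3 : ℝ) ^ (o i n0 + 2) ≤ 3 ^ (o i n) :=
          pow_le_pow_right₀ (by norm_num) (by omega)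
        have h4 : (m : ℝ) * 2 ^ i ≤ 2 * (3 ^ (o i n0) * (n0 : ℝ)) := by
          have : (m : ℝ) * 2 ^ i * (1 / 2) ≤ (m : ℝ) * 2 ^ i * (1 - σ) :=
            mul_le_mul_of_nonneg_left (by linarith) (by positivity)
          linarith
        have h5 : (3 : ℝ) ^ (o i n0 + 2) * (n : ℝ) ≤ 2 * (3 ^ (o i n0) * (n0 : ℝ)) := by
          have : (3 : ℝ) ^ (o i n0 + 2) * (n : ℝ) ≤ 3 ^ (o i n) * (n : ℝ) :=
            mul_le_mul_of_nonneg_right h3 (Nat.cast_nonneg n)
          linarith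
        have h6 : (3 : ℝ) ^ (o i n0) * (9 * (n : ℝ)) ≤ 3 ^ (o i n0) * (2 * (n0 : ℝ)) := by
          have e1 : (3 : ℝ) ^ (o i n0 + 2) * (n : ℝ) = 3 ^ (o i n0) * (9 * (n : ℝ)) := by ring
          have e2 : 2 * (3 ^ (o i n0) * (n0 : ℝ)) = 3 ^ (o i n0) * (2 * (n0 : ℝ)) := by ring
          rw [e1, e2] at h5; exact h5
        have h7 := le_of_mul_le_mul_left h6 (by positivity)
        have h8 : (2 : ℝ) ^ (L + 1) = 2 * 2 ^ L := by ring
        have h9 : (0 : ℝ) < 2 ^ L := by positivity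
        linarith
      rw [mem_union, hA, mem_filter, mem_filter]
      rcases Nat.lt_or_ge (o i n0) (o i n) with h3 | h3
      · right; exact ⟨hn, by omega⟩
      · left; exact ⟨hn, by omega⟩
    have h1 := (card_le_card hsub).trans (card_union_le _ _)
    have h2 : ((Fib L i m σ).card : ℝ) ≤ (A (o i n0)).card + (A (o i n0 + 1)).card := by
      exact_mod_cast h1
    have h3 := hAcard (o i n0)
    have h4 := hAcard (o i n0 + 1)
    linarith

end Pool.Agent.Lib.MP_0a5adf_nt.H89
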