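import Mathlib

/-!
Lemmas on the first `L` steps of 3x+1 trajectories (from the hand-in TailOrder of helper25).
Exact order of the tail of the excursion ratio over the first `L` steps, for starting values in
the dyadic block `[2 ^ L, 2 ^ (L + 1))`.
-/

set_option autoImplicit false

namespace Pool.Agent.Lib.MP_0a5adf_nt.H89

open Finset

/-- The accelerated 3x+1 map: `n / 2` for even `n` and `(3 n + 1) / 2` for odd `n`. -/
def T (n : ℕ) : ℕ := if n % 2 = 0 then n / 2 else (3 * n + 1) / 2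

/-- Number of odd terms among the first `k` terms of the trajectory of `n`. -/
def o (k n : ℕ) : ℕ := ∑ i ∈ range k, (T^[i] n) % 2

lemma T_add_even (x b : ℕ) (h : x % 2 = 0) : T (x + 2 * b) = T x + b := by
  unfold T
  rw [if_pos h, if_pos (by omega)]
  omega

lemma T_add_odd (x b : ℕ) (h : x % 2 = 1) : T (x + 2 * b) = T x + 3 * b := by
  unfold T
  rw [if_neg (by omega), if_neg (by omega)]
  omega

lemma o_succ (k n : ℕ) : o (k + 1) n = o k n + (T^[k] n) % 2 := by
  unfold o
  rw [sum_range_succ]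

lemma shift (k : ℕ) : ∀ n a : ℕ, T^[k] (n + 2 ^ k * a) = T^[k] n + 3 ^ (o k n) * a ∧
    o k (n + 2 ^ k * a) = o k n := by
  induction k with
  | zero => intro n a; simp [o]
  | succ k ih =>
    intro n a
    have h := ih n (2 * a)
    have e : n + 2 ^ (k + 1) * a = n + 2 ^ k * (2 * a) := by ring
    rw [e]
    have hpar : (T^[k] (n + 2 ^ k * (2 * a))) % 2 = (T^[k] n) % 2 := by
      rw [h.1, show 3 ^ o k n * (2 * a) = 2 * (3 ^ o k n * a) by ring]
      omega
    have ho : o (k + 1) (n + 2 ^ k * (2 * a)) = o (k + 1) n := by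
      rw [o_succ, o_succ, h.2, hpar]
    refine ⟨?_, ho⟩
    rw [Function.iterate_succ_apply', Function.iterate_succ_apply', h.1,
      show 3 ^ o k n * (2 * a) = 2 * (3 ^ o k n * a) by ring]
    rcases Nat.mod_two_eq_zero_or_one (T^[k] n) with h0 | h1
    · rw [T_add_even _ _ h0, o_succ, h0, Nat.add_zero]
    · rw [T_add_odd _ _ h1, o_succ, h1, pow_succ]
      ring

/-- The multiplicative weight of the first `k` steps. -/
noncomputable def W (k n : ℕ) : ℝ := (3 : ℝ) ^ (o k n) / 2 ^ k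

lemma W_pos (k n : ℕ) : 0 < W k n := by unfold W; positivity

lemma W_zero (n : ℕ) : W 0 n = 1 := by simp [W, o]

lemma W_shift (k n : ℕ) : W k (2 ^ k + n) = W k n := by
  have := (shift k n 1).2
  rw [mul_one, add_comm] at this
  simp [W, this]

lemma W_shift' (j k n : ℕ) (h : j ≤ k) : W j (2 ^ k + n) = W j n := by
  obtain ⟨d, rfl⟩ := Nat.exists_eq_add_of_le h
  have := (shift j n (2 ^ d)).2
  rw [← pow_add, add_comm] at this
  simp [W, this]

lemma W_succ_even (k n : ℕ) (h : (T^[k] n) % 2 = 0) : W (k + 1) n = W k n * (1 / 2) := by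
  unfold W
  rw [o_succ, h, add_zero, pow_succ 2 k]
  field_simp

lemma W_succ_odd (k n : ℕ) (h : (T^[k] n) % 2 = 1) : W (k + 1) n = W k n * (3 / 2) := by
  unfold W
  rw [o_succ, h, pow_succ 2 k, pow_succ 3 (o k n)]
  field_simp

lemma parity_flip (k n : ℕ) : (T^[k] (2 ^ k + n)) % 2 = 1 - (T^[k] n) % 2 := by
  have h := (shift k n 1).1
  rw [mul_one, mul_one, add_comm n] at h
  have h3 : (3 ^ o k n) % 2 = 1 := by rw [Nat.pow_mod]; simp
  rw [h]
  omega

/-- The two lifts of a residue class modulo `2 ^ k` take one even and one odd step. -/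
lemma W_pair (k n : ℕ) (F : ℝ → ℝ) :
    F (W (k + 1) n) + F (W (k + 1) (2 ^ k + n)) = F (W k n * (3 / 2)) + F (W k n * (1 / 2)) := by
  have hf := parity_flip k n
  rcases Nat.mod_two_eq_zero_or_one (T^[k] n) with h0 | h1
  · rw [W_succ_even k n h0, W_succ_odd k (2 ^ k + n) (by omega), W_shift]
    ring
  · rw [W_succ_odd k n h1, W_succ_even k (2 ^ k + n) (by omega), W_shift]

lemma W_succ_le (k n : ℕ) : W (k + 1) n ≤ W k n * (3 / 2) := by
  have := W_pos k n
  rcases Nat.mod_two_eq_zero_or_one (T^[k] n) with h0 | h1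
  · rw [W_succ_even k n h0]; linarith
  · rw [W_succ_odd k n h1]

lemma sum_split (k : ℕ) (f : ℕ → ℝ) :
    ∑ n ∈ range (2 ^ (k + 1)), f n = ∑ n ∈ range (2 ^ k), (f n + f (2 ^ k + n)) := by
  rw [pow_succ, mul_two, Finset.sum_range_add, ← Finset.sum_add_distrib]

/-- Moment identity. -/
lemma moment (s : ℝ) (k : ℕ) :
    ∑ n ∈ range (2 ^ k), (W k n) ^ s = ((3 / 2 : ℝ) ^ s + (1 / 2 : ℝ) ^ s) ^ k := by
  induction k with
  | zero => simp [W_zero]
  | succ k ih =>
    rw [sum_split]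
    have : ∀ n ∈ range (2 ^ k), (W (k + 1) n) ^ s + (W (k + 1) (2 ^ k + n)) ^ s
        = (W k n) ^ s * ((3 / 2 : ℝ) ^ s + (1 / 2 : ℝ) ^ s) := by
      intro n _
      rw [W_pair k n (fun x => x ^ s), Real.mul_rpow (W_pos k n).le (by norm_num),
        Real.mul_rpow (W_pos k n).le (by norm_num)]
      ring
    rw [Finset.sum_congr rfl this, ← Finset.sum_mul, ih, pow_succ]

lemma total (k : ℕ) : ∑ n ∈ range (2 ^ k), W k n = 2 ^ k := by
  have := moment 1 k
  simp only [Real.rpow_one] at this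
  rw [this]; norm_num

/-- `n` has reached level `μ` by time `k`. -/
def Hit (μ : ℝ) (k n : ℕ) : Prop := ∃ j ≤ k, μ ≤ W j n

lemma Hit_shift (μ : ℝ) (k n : ℕ) : Hit μ k (2 ^ k + n) ↔ Hit μ k n := by
  unfold Hit
  constructor
  · rintro ⟨j, hj, h⟩; exact ⟨j, hj, by rwa [W_shift' j k n hj] at h⟩
  · rintro ⟨j, hj, h⟩; exact ⟨j, hj, by rwa [W_shift' j k n hj]⟩

lemma Hit_succ (μ : ℝ) (k n : ℕ) : Hit μ (k + 1) n ↔ Hit μ k n ∨ μ ≤ W (k + 1) n := by
  unfold Hit
  constructor
  · rintro ⟨j, hj, h⟩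
    rcases Nat.lt_or_ge k j with h1 | h1
    · have : j = k + 1 := by omega
      subst this; exact Or.inr h
    · exact Or.inl ⟨j, h1, h⟩
  · rintro (⟨j, hj, h⟩ | h)
    · exact ⟨j, by omega, h⟩
    · exact ⟨k + 1, le_rfl, h⟩

open Classical in
/-- Stopped-martingale inequalities: lower and upper bound for the mass on the hit set. -/
lemma stopped (μ : ℝ) (hμ : 1 ≤ μ) (k : ℕ) :
    (∑ n ∈ range (2 ^ k), if Hit μ k n then W k n else 0)
      ≤ 3 / 2 * μ * ∑ n ∈ range (2 ^ k), (if Hit μ k n then (1 : ℝ) else 0) := by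
  induction k with
  | zero =>
    simp only [pow_zero, range_one, sum_singleton, W_zero]
    split_ifs <;> linarith
  | succ k ih =>
    rw [sum_split, sum_split]
    have key : ∀ n ∈ range (2 ^ k),
        ((if Hit μ (k + 1) n then W (k + 1) n else 0)
          + (if Hit μ (k + 1) (2 ^ k + n) then W (k + 1) (2 ^ k + n) else 0))
        - 3 / 2 * μ * ((if Hit μ (k + 1) n then (1 : ℝ) else 0)
          + (if Hit μ (k + 1) (2 ^ k + n) then (1 : ℝ) else 0))
        ≤ 2 * ((if Hit μ k n then W k n else 0) - 3 / 2 * μ * (if Hit μ k n then (1 : ℝ) else 0)) := by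
      intro n _
      by_cases hk : Hit μ k n
      · have h1 : Hit μ (k + 1) n := (Hit_succ μ k n).2 (Or.inl hk)
        have h2 : Hit μ (k + 1) (2 ^ k + n) :=
          (Hit_succ μ k _).2 (Or.inl ((Hit_shift μ k n).2 hk))
        rw [if_pos h1, if_pos h2, if_pos hk, if_pos h1, if_pos h2, if_pos hk,
          W_pair k n (fun x => x)]
        linarith
      · have hlt : W k n < μ := by
          by_contra hcon
          exact hk ⟨k, le_rfl, by linarith⟩
        have b1 : W (k + 1) n ≤ 3 / 2 * μ := by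
          have := W_succ_le k n; linarith
        have b2 : W (k + 1) (2 ^ k + n) ≤ 3 / 2 * μ := by
          have := W_succ_le k (2 ^ k + n)
          rw [W_shift] at this; linarith
        rw [if_neg hk, if_neg hk]
        split_ifs <;> linarith
    have h2 := Finset.sum_le_sum key
    rw [Finset.sum_sub_distrib, ← Finset.mul_sum, ← Finset.mul_sum, Finset.sum_sub_distrib,
      ← Finset.mul_sum] at h2
    linarith

open Classical in
lemma ville (μ : ℝ) (k : ℕ) :
    μ * ∑ n ∈ range (2 ^ k), (if Hit μ k n then (1 : ℝ) else 0)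
      ≤ ∑ n ∈ range (2 ^ k), if Hit μ k n then W k n else 0 := by
  induction k with
  | zero =>
    simp only [pow_zero, range_one, sum_singleton, W_zero]
    split_ifs with h
    · obtain ⟨j, hj, h⟩ := h
      have : j = 0 := by omega
      subst this
      rw [W_zero] at h; linarith
    · simp
  | succ k ih =>
    rw [sum_split, sum_split]
    have key : ∀ n ∈ range (2 ^ k),
        2 * ((if Hit μ k n then W k n else 0) - μ * (if Hit μ k n then (1 : ℝ) else 0)) ≤
        ((if Hit μ (k + 1) n then W (k + 1) n else 0)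
          + (if Hit μ (k + 1) (2 ^ k + n) then W (k + 1) (2 ^ k + n) else 0))
        - μ * ((if Hit μ (k + 1) n then (1 : ℝ) else 0)
          + (if Hit μ (k + 1) (2 ^ k + n) then (1 : ℝ) else 0)) := by
      intro n _
      by_cases hk : Hit μ k n
      · have h1 : Hit μ (k + 1) n := (Hit_succ μ k n).2 (Or.inl hk)
        have h2 : Hit μ (k + 1) (2 ^ k + n) :=
          (Hit_succ μ k _).2 (Or.inl ((Hit_shift μ k n).2 hk))
        rw [if_pos h1, if_pos h2, if_pos hk, if_pos h1, if_pos h2, if_pos hk,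
          W_pair k n (fun x => x)]
        linarith
      · have hk2 : ¬ Hit μ k (2 ^ k + n) := fun h => hk ((Hit_shift μ k n).1 h)
        have b1 : Hit μ (k + 1) n → μ ≤ W (k + 1) n := fun h =>
          ((Hit_succ μ k n).1 h).resolve_left hk
        have b2 : Hit μ (k + 1) (2 ^ k + n) → μ ≤ W (k + 1) (2 ^ k + n) := fun h =>
          ((Hit_succ μ k _).1 h).resolve_left hk2
        rw [if_neg hk, if_neg hk]
        split_ifs with h1 h2 h2
        · have := b1 h1; have := b2 h2; linarith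
        · have := b1 h1; linarith
        · have := b2 h2; linarith
        · simp
    have h2 := Finset.sum_le_sum key
    rw [Finset.sum_sub_distrib, ← Finset.mul_sum, ← Finset.mul_sum, Finset.sum_sub_distrib,
      ← Finset.mul_sum] at h2
    linarith


/-- Trajectory values dominate the multiplicative weight. -/
lemma W_mul_le (k n : ℕ) : W k n * n ≤ (T^[k] n : ℝ) := by
  induction k with
  | zero => simp [W_zero]
  | succ k ih =>
    rw [Function.iterate_succ_apply']
    rcases Nat.mod_two_eq_zero_or_one (T^[k] n) with h0 | h1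
    · rw [W_succ_even k n h0]
      have : (2 : ℝ) * (T (T^[k] n) : ℝ) = (T^[k] n : ℝ) := by
        have : 2 * T (T^[k] n) = T^[k] n := by
          generalize T^[k] n = x at *
          unfold T; rw [if_pos h0]; omega
        exact_mod_cast this
      linarith
    · rw [W_succ_odd k n h1]
      have : (2 : ℝ) * (T (T^[k] n) : ℝ) = 3 * (T^[k] n : ℝ) + 1 := by
        have : 2 * T (T^[k] n) = 3 * T^[k] n + 1 := by
          generalize T^[k] n = x at *
          unfold T; rw [if_neg (by omega)]; omega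
        exact_mod_cast this
      linarith

/-- Upper bound for trajectory values by the multiplicative weight. -/
lemma le_W_mul (k n : ℕ) : (T^[k] n : ℝ) + 1 ≤ W k n * (n + 2 ^ k) := by
  induction k with
  | zero => simp [W_zero]
  | succ k ih =>
    rw [Function.iterate_succ_apply']
    have hW : 1 ≤ W (k + 1) n * 2 ^ (k + 1) := by
      unfold W
      rw [div_mul_cancel₀ _ (by positivity)]
      exact one_le_pow₀ (by norm_num)
    have hWpos := W_pos k n
    have h2k : (0 : ℝ) < 2 ^ k := by positivity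
    rcases Nat.mod_two_eq_zero_or_one (T^[k] n) with h0 | h1
    · have e : (2 : ℝ) * (T (T^[k] n) : ℝ) = (T^[k] n : ℝ) := by
        have : 2 * T (T^[k] n) = T^[k] n := by
          generalize T^[k] n = x at *
          unfold T; rw [if_pos h0]; omega
        exact_mod_cast this
      rw [W_succ_even k n h0] at hW ⊢
      rw [pow_succ] at hW ⊢
      nlinarith
    · have e : (2 : ℝ) * (T (T^[k] n) : ℝ) = 3 * (T^[k] n : ℝ) + 1 := by
        have : 2 * T (T^[k] n) = 3 * T^[k] n + 1 := by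
          generalize T^[k] n = x at *
          unfold T; rw [if_neg (by omega)]; omega
        exact_mod_cast this
      rw [W_succ_odd k n h1, pow_succ]
      nlinarith

/-- A run of `k` odd steps. -/
lemma iterate_run (k : ℕ) : ∀ u : ℕ, 1 ≤ u → T^[k] (2 ^ k * u - 1) = 3 ^ k * u - 1 := by
  induction k with
  | zero => intro u _; simp
  | succ k ih =>
    intro u hu
    have h1 : T (2 ^ (k + 1) * u - 1) = 2 ^ k * (3 * u) - 1 := by
      have hpos : 1 ≤ 2 ^ k * u := Nat.one_le_iff_ne_zero.mpr (by positivity)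
      have e1 : 2 ^ (k + 1) * u = 2 * (2 ^ k * u) := by ring
      have e2 : 2 ^ k * (3 * u) = 3 * (2 ^ k * u) := by ring
      rw [e1, e2]
      generalize 2 ^ k * u = y at *
      unfold T
      rw [if_neg (by omega)]
      omega
    rw [Function.iterate_succ_apply, h1, ih (3 * u) (by omega)]
    congr 1
    ring

lemma W_top (L : ℕ) : W L (2 ^ L - 1) = (3 / 2) ^ L := by
  have ho : o L (2 ^ L - 1) = L := by
    unfold o
    rw [Finset.sum_congr rfl (g := fun _ => 1)]
    · simp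
    · intro i hi
      have hi : i < L := Finset.mem_range.1 hi
      obtain ⟨d, rfl⟩ := Nat.exists_eq_add_of_lt hi
      have e : 2 ^ (i + d + 1) = 2 ^ i * (2 ^ (d + 1)) := by
        rw [← pow_add]; ring_nf
      rw [e, iterate_run i _ (Nat.one_le_two_pow)]
      have e2 : 3 ^ i * 2 ^ (d + 1) = 2 * (3 ^ i * 2 ^ d) := by ring
      have : 0 < 3 ^ i * 2 ^ d := by positivity
      omega
  unfold W
  rw [ho, div_pow]

/-- The numbers in the dyadic block `[2 ^ L, 2 ^ (L + 1))` whose trajectory reaches the level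
`lam * n` within the first `L` steps. -/
def Reach (L : ℕ) (lam : ℝ) : Set ℕ :=
  {n : ℕ | 2 ^ L ≤ n ∧ n < 2 ^ (L + 1) ∧ ∃ k ≤ L, lam * n ≤ (T^[k] n : ℝ)}

open Classical in
lemma sum_ind (μ : ℝ) (L : ℕ) :
    ∑ n ∈ range (2 ^ L), (if Hit μ L n then (1 : ℝ) else 0)
      = (((range (2 ^ L)).filter (fun n => Hit μ L n)).card : ℝ) := by
  rw [Finset.sum_ite]; simp

lemma Reach_finite (L : ℕ) (lam : ℝ) : (Reach L lam).Finite :=
  (Set.finite_Iio (2 ^ (L + 1))).subset (fun n hn => hn.2.1)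

open Classical in
lemma hit_le_reach (L : ℕ) (lam : ℝ) :
    ((range (2 ^ L)).filter (fun n => Hit lam L n)).card ≤ (Reach L lam).ncard := by
  have hinj : Function.Injective (fun r : ℕ => 2 ^ L + r) := fun a b h => by
    simpa using h
  rw [← Finset.card_image_of_injective _ hinj, ← Set.ncard_coe_finset]
  apply Set.ncard_le_ncard _ (Reach_finite L lam)
  intro n hn
  simp only [Finset.coe_image, Finset.coe_filter, Finset.mem_range, Set.mem_image,
    Set.mem_ofPred_eq] at hn
  obtain ⟨r, ⟨hr, j, hj, hW⟩, rfl⟩ := hn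
  refine ⟨by omega, by rw [pow_succ]; omega, j, hj, ?_⟩
  rw [← W_shift' j L r hj] at hW
  calc lam * ((2 ^ L + r : ℕ) : ℝ) ≤ W j (2 ^ L + r) * ((2 ^ L + r : ℕ) : ℝ) := by gcongr
    _ ≤ _ := W_mul_le j _

open Classical in
lemma reach_le_hit (L : ℕ) (lam : ℝ) :
    (Reach L lam).ncard ≤ ((range (2 ^ L)).filter (fun n => Hit (lam / 2) L n)).card := by
  have hinj : Function.Injective (fun r : ℕ => 2 ^ L + r) := fun a b h => by
    simpa using h
  rw [← Finset.card_image_of_injective _ hinj, ← Set.ncard_coe_finset]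
  apply Set.ncard_le_ncard _ (Finset.finite_toSet _)
  rintro n ⟨h1, h2, j, hj, hW⟩
  simp only [Finset.coe_image, Finset.coe_filter, Finset.mem_range, Set.mem_image,
    Set.mem_ofPred_eq]
  obtain ⟨r, rfl⟩ := Nat.exists_eq_add_of_le h1
  refine ⟨r, ⟨by rw [pow_succ] at h2; omega, j, hj, ?_⟩, rfl⟩
  rw [← W_shift' j L r hj]
  have h3 := le_W_mul j (2 ^ L + r)
  have hWpos := W_pos j (2 ^ L + r)
  have h4 : (2 : ℝ) ^ j ≤ ((2 ^ L + r : ℕ) : ℝ) := by
    have : 2 ^ j ≤ 2 ^ L + r := le_trans (Nat.pow_le_pow_right (by norm_num) hj) (by omega)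
    exact_mod_cast this
  have hpos : (0 : ℝ) < ((2 ^ L + r : ℕ) : ℝ) := lt_of_lt_of_le (by positivity) h4
  have h5 : lam * ((2 ^ L + r : ℕ) : ℝ) ≤ (2 * W j (2 ^ L + r)) * ((2 ^ L + r : ℕ) : ℝ) := by
    nlinarith
  have h6 := le_of_mul_le_mul_right h5 hpos
  linarith

/-- Upper bound for the number of large excursions. -/
lemma reach_upper (L : ℕ) (lam : ℝ) (hlam : 0 < lam) :
    ((Reach L lam).ncard : ℝ) ≤ 2 * 2 ^ L / lam := by
  classical
  have h1 := ville (lam / 2) L
  rw [sum_ind] at h1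
  have h2 : (∑ n ∈ range (2 ^ L), if Hit (lam / 2) L n then W L n else 0) ≤ 2 ^ L := by
    rw [← total L]
    apply Finset.sum_le_sum
    intro n _
    have := W_pos L n
    split_ifs <;> linarith
  have h3 : ((Reach L lam).ncard : ℝ)
      ≤ (((range (2 ^ L)).filter (fun n => Hit (lam / 2) L n)).card : ℝ) := by
    exact_mod_cast reach_le_hit L lam
  rw [le_div_iff₀ hlam]
  nlinarith

/-- Lower bound for the number of large excursions, with a free parameter `s`. -/
lemma reach_lower (L : ℕ) (lam s : ℝ) (hlam : 1 ≤ lam) (hs : 0 < s) (hs1 : s < 1) :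
    2 ^ L - lam ^ s * ((3 / 2 : ℝ) ^ (1 - s) + (1 / 2 : ℝ) ^ (1 - s)) ^ L
      ≤ 3 / 2 * lam * ((Reach L lam).ncard : ℝ) := by
  classical
  have h1 := stopped lam hlam L
  rw [sum_ind] at h1
  have h3 : (((range (2 ^ L)).filter (fun n => Hit lam L n)).card : ℝ)
      ≤ ((Reach L lam).ncard : ℝ) := by
    exact_mod_cast hit_le_reach L lam
  have h4 : (2 : ℝ) ^ L - (∑ n ∈ range (2 ^ L), if Hit lam L n then W L n else 0)
      ≤ lam ^ s * ((3 / 2 : ℝ) ^ (1 - s) + (1 / 2 : ℝ) ^ (1 - s)) ^ L := by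
    rw [← total L, ← moment (1 - s) L, ← Finset.sum_sub_distrib, Finset.mul_sum]
    apply Finset.sum_le_sum
    intro n _
    have hWpos := W_pos L n
    by_cases hH : Hit lam L n
    · rw [if_pos hH, sub_self]; positivity
    · rw [if_neg hH, sub_zero]
      have hlt : W L n ≤ lam := by
        by_contra hcon
        exact hH ⟨L, le_rfl, by linarith⟩
      calc W L n = (W L n) ^ s * (W L n) ^ (1 - s) := by
            rw [← Real.rpow_add hWpos]; simp
        _ ≤ lam ^ s * (W L n) ^ (1 - s) := by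
            gcongr
  have h5 : (0 : ℝ) < 3 / 2 * lam := by linarith
  nlinarith

/-- Choice of the exponent `s`. -/
lemma exists_s (δ : ℝ) (hδ : δ < 3 / 4 * Real.logb 2 3 - 1) :
    ∃ s : ℝ, 0 < s ∧ s < 1 ∧
      (2 : ℝ) ^ (δ * s) * ((3 / 2 : ℝ) ^ (1 - s) + (1 / 2 : ℝ) ^ (1 - s)) < 2 := by
  set f : ℝ → ℝ := fun s => (2 : ℝ) ^ (δ * s) * ((3 / 2 : ℝ) ^ (1 - s) + (1 / 2 : ℝ) ^ (1 - s))
    with hf
  have h1 : HasDerivAt (fun s : ℝ => (2 : ℝ) ^ (δ * s)) (Real.log 2 * δ) 0 := by
    have := (((hasDerivAt_id (0 : ℝ)).const_mul δ)).const_rpow (a := 2) (by norm_num)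
    simpa using this
  have h2 : HasDerivAt (fun s : ℝ => (3 / 2 : ℝ) ^ (1 - s)) (-(Real.log (3 / 2) * (3 / 2))) 0 := by
    have := (((hasDerivAt_id (0 : ℝ)).const_sub 1)).const_rpow (a := 3 / 2) (by norm_num)
    simpa using this
  have h3 : HasDerivAt (fun s : ℝ => (1 / 2 : ℝ) ^ (1 - s)) (-(Real.log (1 / 2) * (1 / 2))) 0 := by
    have := (((hasDerivAt_id (0 : ℝ)).const_sub 1)).const_rpow (a := 1 / 2) (by norm_num)
    simpa using this
  have h4 : HasDerivAt f (Real.log 2 * δ * 2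
      + (-(Real.log (3 / 2) * (3 / 2)) + -(Real.log (1 / 2) * (1 / 2)))) 0 := by
    have h := h1.mul (h2.add h3)
    have e : Real.log 2 * δ * 2
      + (-(Real.log (3 / 2) * (3 / 2)) + -(Real.log (1 / 2) * (1 / 2)))
      = Real.log 2 * δ * ((3 / 2 : ℝ) ^ (1 - (0 : ℝ)) + (1 / 2 : ℝ) ^ (1 - (0 : ℝ)))
        + (2 : ℝ) ^ (δ * 0) * (-(Real.log (3 / 2) * (3 / 2)) + -(Real.log (1 / 2) * (1 / 2))) := by
      rw [sub_zero, Real.rpow_one, Real.rpow_one, mul_zero, Real.rpow_zero]
      ring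
    rw [e]
    exact h
  have hneg : Real.log 2 * δ * 2
      + (-(Real.log (3 / 2) * (3 / 2)) + -(Real.log (1 / 2) * (1 / 2))) < 0 := by
    have hl2 : 0 < Real.log 2 := Real.log_pos (by norm_num)
    rw [Real.log_div (by norm_num) (by norm_num), Real.log_div (by norm_num) (by norm_num),
      Real.log_one]
    rw [Real.logb, lt_sub_iff_add_lt] at hδ
    have h5 : (δ + 1) * Real.log 2 < 3 / 4 * (Real.log 3 / Real.log 2) * Real.log 2 := by
      exact mul_lt_mul_of_pos_right hδ hl2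
    have h6 : 3 / 4 * (Real.log 3 / Real.log 2) * Real.log 2 = 3 / 4 * Real.log 3 := by
      field_simp
    rw [h6] at h5
    linarith
  have hs := hasDerivAt_iff_tendsto_slope.1 h4
  have hev : ∀ᶠ s in nhdsWithin (0 : ℝ) {0}ᶜ, slope f 0 s < 0 := hs.eventually_lt_const hneg
  have hev2 : ∀ᶠ s in nhdsWithin (0 : ℝ) (Set.Ioi 0), slope f 0 s < 0 :=
    hev.filter_mono (nhdsWithin_mono _ (fun x hx => ne_of_gt hx))
  have hev3 : ∀ᶠ s in nhdsWithin (0 : ℝ) (Set.Ioi 0), s ∈ Set.Ioo (0 : ℝ) 1 :=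
    Ioo_mem_nhdsGT (by norm_num)
  obtain ⟨s, hs1, hs2⟩ := (hev2.and hev3).exists
  refine ⟨s, hs2.1, hs2.2, ?_⟩
  have hf0 : f 0 = 2 := by simp [hf]; norm_num
  rw [slope_def_field, sub_zero, hf0] at hs1
  have := (div_neg_iff.1 hs1)
  rcases this with ⟨_, h⟩ | ⟨h, _⟩
  · linarith [hs2.1]
  · linarith

/-- **Theorem.** Let `δ < (3/4) log_2 3 - 1 = 0.188...`.  Uniformly for `L ≥ 0` and
`1 ≤ lam ≤ 2 ^ (δ L)`, the number of `n` in `[2 ^ L, 2 ^ (L + 1))` whose trajectory reaches
`lam * n` within `L` steps is of exact order `2 ^ L / lam`. -/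
theorem tail_order (δ : ℝ) (hδ : δ < 3 / 4 * Real.logb 2 3 - 1) :
    ∃ c : ℝ, 0 < c ∧ ∀ (L : ℕ) (lam : ℝ), 1 ≤ lam → lam ≤ (2 : ℝ) ^ (δ * L) →
      c * 2 ^ L / lam ≤ ((Reach L lam).ncard : ℝ) ∧
      ((Reach L lam).ncard : ℝ) ≤ 2 * 2 ^ L / lam := by
  obtain ⟨s, hs0, hs1, hs⟩ := exists_s δ hδ
  set G : ℝ := (3 / 2 : ℝ) ^ (1 - s) + (1 / 2 : ℝ) ^ (1 - s) with hG
  have hGpos : 0 < G := by positivity
  set ρ : ℝ := (2 : ℝ) ^ (δ * s) * G / 2 with hρ
  have hρ0 : 0 < ρ := by positivity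
  have hρ1 : ρ < 1 := by rw [hρ]; linarith
  obtain ⟨L₀, hL₀⟩ := exists_pow_lt_of_lt_one (show (0 : ℝ) < 1 / 2 by norm_num) hρ1
  refine ⟨min (1 / 3) (1 / 2 ^ L₀), by positivity, ?_⟩
  intro L lam hlam1 hlam2
  have hlampos : 0 < lam := by linarith
  refine ⟨?_, reach_upper L lam hlampos⟩
  rw [div_le_iff₀ hlampos]
  rcases Nat.lt_or_ge L L₀ with hL | hL
  · -- small blocks: the number `2 ^ (L + 1) - 1`
    have h1 : 1 ≤ (Reach L lam).ncard := by
      classical
      refine le_trans ?_ (hit_le_reach L lam)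
      rw [Nat.one_le_iff_ne_zero]
      apply Finset.card_ne_zero_of_mem (a := 2 ^ L - 1)
      rw [Finset.mem_filter, Finset.mem_range]
      have hp : 0 < 2 ^ L := by positivity
      refine ⟨by omega, L, le_rfl, ?_⟩
      rw [W_top]
      refine le_trans hlam2 ?_
      rw [Real.rpow_mul (by norm_num), Real.rpow_natCast]
      have h2 : (2 : ℝ) ^ δ ≤ 3 / 2 := by
        have h3 : δ ≤ Real.logb 2 (3 / 2) := by
          have h4 : Real.logb 2 (3 / 2) = Real.logb 2 3 - 1 := by
            rw [Real.logb_div (by norm_num) (by norm_num), Real.logb_self_eq_one (by norm_num)]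
          have h5 : 0 < Real.logb 2 3 := Real.logb_pos (by norm_num) (by norm_num)
          rw [h4]; linarith
        calc (2 : ℝ) ^ δ ≤ 2 ^ (Real.logb 2 (3 / 2)) :=
              Real.rpow_le_rpow_of_exponent_le (by norm_num) h3
          _ = 3 / 2 := Real.rpow_logb (by norm_num) (by norm_num) (by norm_num)
      gcongr
    have h1' : (1 : ℝ) ≤ ((Reach L lam).ncard : ℝ) := by exact_mod_cast h1
    have h2 : min (1 / 3 : ℝ) (1 / 2 ^ L₀) * 2 ^ L ≤ 1 := by
      calc min (1 / 3 : ℝ) (1 / 2 ^ L₀) * 2 ^ L ≤ (1 / 2 ^ L₀) * 2 ^ L₀ := by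
            gcongr
            · exact min_le_right _ _
            · norm_num
        _ = 1 := by field_simp
    nlinarith
  · have h1 := reach_lower L lam s hlam1 hs0 hs1
    rw [← hG] at h1
    have h2 : lam ^ s * G ^ L ≤ 2 ^ L * (1 / 2) := by
      calc lam ^ s * G ^ L ≤ ((2 : ℝ) ^ (δ * L)) ^ s * G ^ L := by gcongr
        _ = ((2 : ℝ) ^ (δ * s) * G) ^ L := by
            rw [mul_pow, ← Real.rpow_mul (by norm_num), ← Real.rpow_natCast (2 ^ (δ * s)) L,
              ← Real.rpow_mul (by norm_num)]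
            ring_nf
        _ = (2 * ρ) ^ L := by rw [hρ]; ring_nf
        _ = 2 ^ L * ρ ^ L := mul_pow _ _ _
        _ ≤ 2 ^ L * ρ ^ L₀ := by
            gcongr 2 ^ L * ?_
            exact pow_le_pow_of_le_one hρ0.le hρ1.le hL
        _ ≤ 2 ^ L * (1 / 2) := by gcongr
    have h3 : min (1 / 3 : ℝ) (1 / 2 ^ L₀) * 2 ^ L ≤ 1 / 3 * 2 ^ L := by
      gcongr
      exact min_le_left _ _
    nlinarith

end Pool.Agent.Lib.MP_0a5adf_nt.H89
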